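import Pool.Agent.Helper75.Torus.Goals

set_option autoImplicit false

open Set MeasureTheory Matrix

namespace Pool.Agent.Helper5.Torus

open Pool.Agent.Helper75.Torus
open Pool.Agent.Helper75.Flow (curlL)

lemma curlL_zero : curlL (0 : E →L[ℝ] E) = 0 := by
  unfold curlL
  ext i
  fin_cases i <;> simp

/-- the scalar profile -/
noncomputable def pf (η : E → ℝ) (κ : E) (δ τ : ℝ) (Y : E) : ℝ :=
  -(th η κ δ Y * Real.sin (κ ⬝ᵥ Y + τ))

lemma th_smooth (η : E → ℝ) (κ : E) (δ : ℝ) (hη : ContDiff ℝ 4 η) : ContDiff ℝ 4 (th η κ δ) := by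
  unfold th
  have k1 : ContDiff ℝ 4 (fun Y : E => δ • Y) := by fun_prop
  have k2 : ContDiff ℝ 4 (fun Y : E => δ • (Y + Real.pi • κ)) := by fun_prop
  have h1 : ContDiff ℝ 4 (fun Y : E => η (δ • Y)) := hη.comp k1
  have h2 : ContDiff ℝ 4 (fun Y : E => η (δ • (Y + Real.pi • κ))) := hη.comp k2
  exact (h1.add h2).div_const 2

lemma dot_smooth (κ : E) (τ : ℝ) : ContDiff ℝ 4 (fun Y : E => κ ⬝ᵥ Y + τ) := by
  unfold dotProduct
  fun_prop

lemma pf_smooth (η : E → ℝ) (κ : E) (δ τ : ℝ) (hη : ContDiff ℝ 4 η) :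
    ContDiff ℝ 4 (pf η κ δ τ) := by
  unfold pf
  exact ((th_smooth η κ δ hη).mul (Real.contDiff_sin.comp (dot_smooth κ τ))).neg

lemma Qf_eq (η : E → ℝ) (κ : E) (δ τ : ℝ) (b : E) :
    Qf η κ δ τ b = fun Y => pf η κ δ τ Y • crossProduct κ b := rfl

lemma Qf_smooth (η : E → ℝ) (κ : E) (δ τ : ℝ) (b : E) (hη : ContDiff ℝ 4 η) :
    ContDiff ℝ 4 (Qf η κ δ τ b) := by
  rw [Qf_eq]
  exact (pf_smooth η κ δ τ hη).smul contDiff_const

lemma Tf_eq (η : E → ℝ) (κ : E) (δ τ : ℝ) (b : E) (hη : ContDiff ℝ 4 η) (Y : E) :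
    Tf η κ δ τ b Y = crossProduct (fun j => pd j (pf η κ δ τ) Y) (crossProduct κ b) := by
  have hd : DifferentiableAt ℝ (pf η κ δ τ) Y :=
    (pf_smooth η κ δ τ hη).contDiffAt.differentiableAt (by norm_num)
  have h := hd.hasFDerivAt.smul_const (crossProduct κ b)
  have h2 : fderiv ℝ (Qf η κ δ τ b) Y
      = (fderiv ℝ (pf η κ δ τ) Y).smulRight (crossProduct κ b) := by
    rw [Qf_eq]
    exact h.fderiv
  unfold Tf
  rw [h2]
  unfold curlL
  ext i
  fin_cases i <;> simp [cross_apply, pd] 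

lemma Tf_smooth (η : E → ℝ) (κ : E) (δ τ : ℝ) (b : E) (hη : ContDiff ℝ 4 η) :
    ContDiff ℝ 2 (Tf η κ δ τ b) := by
  have h1 : ContDiff ℝ 3 (fderiv ℝ (Qf η κ δ τ b)) :=
    (Qf_smooth η κ δ τ b hη).fderiv_right (by norm_num)
  have h2 : ∀ (v : E) (i : Fin 3), ContDiff ℝ 3 (fun Y => fderiv ℝ (Qf η κ δ τ b) Y v i) := by
    intro v i
    exact (contDiff_apply ℝ ℝ i).comp (h1.clm_apply contDiff_const)
  have h3 : ContDiff ℝ 3 (Tf η κ δ τ b) := by
    rw [contDiff_pi]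
    intro i
    unfold Tf curlL
    fin_cases i
    · simpa using (h2 _ _).sub (h2 _ _)
    · simpa using (h2 _ _).sub (h2 _ _)
    · simpa using (h2 _ _).sub (h2 _ _)
  exact h3.of_le (by norm_num)

lemma gth_eq (η : E → ℝ) (κ : E) (δ : ℝ) (hη : ContDiff ℝ 4 η) (Y : E) (v : E) :
    fderiv ℝ (th η κ δ) Y v = δ / 2 * (fderiv ℝ η (δ • Y) v + fderiv ℝ η (δ • (Y + Real.pi • κ)) v) := by
  have hd : Differentiable ℝ η := hη.differentiable (by norm_num)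
  have e1 : HasFDerivAt (fun Y : E => η (δ • Y))
      ((fderiv ℝ η (δ • Y)).comp (δ • ContinuousLinearMap.id ℝ E)) Y :=
    (hd (δ • Y)).hasFDerivAt.comp Y ((hasFDerivAt_id Y).const_smul δ)
  have e2 : HasFDerivAt (fun Y : E => η (δ • (Y + Real.pi • κ)))
      ((fderiv ℝ η (δ • (Y + Real.pi • κ))).comp (δ • ContinuousLinearMap.id ℝ E)) Y :=
    (hd (δ • (Y + Real.pi • κ))).hasFDerivAt.comp Y
      (((hasFDerivAt_id Y).add_const (Real.pi • κ)).const_smul δ)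
  have e3 := (e1.add e2).mul_const ((2 : ℝ)⁻¹)
  have e5 : th η κ δ = fun y => ((fun Y : E => η (δ • Y)) + fun Y : E => η (δ • (Y + Real.pi • κ))) y * (2 : ℝ)⁻¹ := by
    funext Z
    simp only [th, Pi.add_apply]
    ring
  rw [e5, e3.fderiv]
  simp
  ring

lemma pd_pf (η : E → ℝ) (κ : E) (δ τ : ℝ) (hη : ContDiff ℝ 4 η) (Y : E) (j : Fin 3) :
    pd j (pf η κ δ τ) Y = -(gth η κ δ Y j * Real.sin (κ ⬝ᵥ Y + τ)
      + th η κ δ Y * (Real.cos (κ ⬝ᵥ Y + τ) * κ j)) := by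
  have d1 : HasFDerivAt (th η κ δ) (fderiv ℝ (th η κ δ) Y) Y :=
    ((th_smooth η κ δ hη).contDiffAt.differentiableAt (by norm_num)).hasFDerivAt
  have d2 : HasFDerivAt (fun Y : E => κ ⬝ᵥ Y + τ)
      (∑ i : Fin 3, κ i • (ContinuousLinearMap.proj (R := ℝ) (φ := fun _ : Fin 3 => ℝ) i)) Y := by
    unfold dotProduct
    refine HasFDerivAt.add_const τ ?_
    refine HasFDerivAt.fun_sum ?_
    intro i _
    exact (hasFDerivAt_apply i Y).const_mul (κ i)
  have d3 := d2.sin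
  have d4 := (d1.mul d3).neg
  have d5 : fderiv ℝ (pf η κ δ τ) Y = _ := d4.fderiv
  unfold pd
  rw [d5]
  simp only [gth, pd]
  simp [Fin.sum_univ_three, Pi.single_apply]
  fin_cases j <;> simp <;> ring

theorem thm : G_T1A := by
  intro η κ hη hκ
  have hη4 := hη.1
  have hκ1 : ‖κ‖ ≤ 1 := by
    rw [pi_norm_le_iff_of_nonneg (by norm_num)]
    intro i
    have h3 : κ 0 * κ 0 + κ 1 * κ 1 + κ 2 * κ 2 = 1 := by
      have := hκ
      simpa [dotProduct, Fin.sum_univ_three] using this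
    rw [Real.norm_eq_abs]
    apply abs_le_of_sq_le_sq' _ (by norm_num) |> abs_le.2
    fin_cases i
    · show κ 0 ^ 2 ≤ 1 ^ 2
      nlinarith [sq_nonneg (κ 0), sq_nonneg (κ 1), sq_nonneg (κ 2)]
    · show κ 1 ^ 2 ≤ 1 ^ 2
      nlinarith [sq_nonneg (κ 0), sq_nonneg (κ 1), sq_nonneg (κ 2)]
    · show κ 2 ^ 2 ≤ 1 ^ 2
      nlinarith [sq_nonneg (κ 0), sq_nonneg (κ 1), sq_nonneg (κ 2)]
  obtain ⟨R0, hR0⟩ : ∃ R0 : ℝ, 0 < R0 ∧ ∀ y : E, R0 ≤ ‖y‖ → η y = 0 := by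
    have hb := hη.2.1.isCompact.isBounded
    obtain ⟨r, hr, hs⟩ := hb.subset_ball_lt 0 0
    refine ⟨r, hr, fun y hy => ?_⟩
    by_contra h
    have : y ∈ tsupport η := subset_tsupport η h
    have := hs this
    rw [Metric.mem_ball, dist_zero_right] at this
    linarith
  obtain ⟨hR0p, hR0⟩ := hR0
  have hpi : Real.pi < 4 := by linarith [Real.pi_lt_d2]
  have hth : ∀ δ ∈ Ioc (0 : ℝ) 1, ∀ Z : E, (R0 + 4) / δ < ‖Z‖ → th η κ δ Z = 0 := by
    intro δ hδ Z hZ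
    have hZ' : R0 + 4 < ‖Z‖ * δ := by
      rwa [div_lt_iff₀ hδ.1] at hZ
    have a1 : η (δ • Z) = 0 := by
      apply hR0
      rw [norm_smul, Real.norm_eq_abs, abs_of_pos hδ.1]
      linarith
    have a2 : η (δ • (Z + Real.pi • κ)) = 0 := by
      apply hR0
      rw [norm_smul, Real.norm_eq_abs, abs_of_pos hδ.1]
      have b1 : ‖Real.pi • κ‖ ≤ 4 := by
        rw [norm_smul, Real.norm_eq_abs, abs_of_pos Real.pi_pos]
        nlinarith [norm_nonneg κ, Real.pi_pos]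
      have b2 : ‖Z‖ - 4 ≤ ‖Z + Real.pi • κ‖ := by
        have := norm_sub_le (Z + Real.pi • κ) (Real.pi • κ)
        rw [add_sub_cancel_right] at this
        linarith
      nlinarith [hδ.1, hδ.2]
    unfold th
    rw [a1, a2]
    simp
  have hout : ∀ δ ∈ Ioc (0 : ℝ) 1, ∀ (τ : ℝ) (b Y : E), (R0 + 5) / δ ≤ ‖Y‖ → Tf η κ δ τ b Y = 0 ∧
      fderiv ℝ (Tf η κ δ τ b) Y = 0 ∧ th η κ δ Y = 0 ∧ gth η κ δ Y = 0 ∧ Qf η κ δ τ b Y = 0 := by
    intro δ hδ τ b Y hY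
    have hYU : (R0 + 4) / δ < ‖Y‖ := by
      have : (R0 + 4) / δ < (R0 + 5) / δ := div_lt_div_of_pos_right (by linarith) hδ.1
      linarith
    have hopen : IsOpen {Z : E | (R0 + 4) / δ < ‖Z‖} := isOpen_lt continuous_const continuous_norm
    have thz : ∀ Z : E, (R0 + 4) / δ < ‖Z‖ → th η κ δ =ᶠ[nhds Z] (fun _ => 0) := by
      intro Z hZ
      filter_upwards [hopen.mem_nhds hZ] with W hW
      exact hth δ hδ W hW
    have Qz : ∀ Z : E, (R0 + 4) / δ < ‖Z‖ → Qf η κ δ τ b =ᶠ[nhds Z] (fun _ => 0) := by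
      intro Z hZ
      filter_upwards [hopen.mem_nhds hZ] with W hW
      unfold Qf
      rw [hth δ hδ W hW]
      simp
    have Tz : ∀ Z : E, (R0 + 4) / δ < ‖Z‖ → Tf η κ δ τ b Z = 0 := by
      intro Z hZ
      unfold Tf
      rw [(Qz Z hZ).fderiv_eq, fderiv_fun_const]
      exact curlL_zero
    have Tzn : Tf η κ δ τ b =ᶠ[nhds Y] (fun _ => 0) := by
      filter_upwards [hopen.mem_nhds hYU] with W hW
      exact Tz W hW
    refine ⟨Tz Y hYU, ?_, hth δ hδ Y hYU, ?_, (Qz Y hYU).self_of_nhds⟩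
    · rw [Tzn.fderiv_eq, fderiv_fun_const]
      rfl
    · funext j
      unfold gth pd
      rw [(thz Y hYU).fderiv_eq, fderiv_fun_const]
      rfl
  refine ⟨⟨R0 + 5, hout⟩, ?_⟩
  intro δ hδ τ
  have hcs : ∀ {F : Type} [Zero F] (f : E → F), (∀ Y : E, (R0 + 5) / δ ≤ ‖Y‖ → f Y = 0) →
      HasCompactSupport f := by
    intro F _ f hf
    apply HasCompactSupport.intro (isCompact_closedBall (0 : E) ((R0 + 5) / δ))
    intro x hx
    apply hf
    rw [Metric.mem_closedBall, dist_zero_right, not_le] at hx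
    exact hx.le
  refine ⟨fun b => ⟨Tf_smooth η κ δ τ b hη4, hcs _ (fun Y hY => (hout δ hδ τ b Y hY).1),
    (Qf_smooth η κ δ τ b hη4).of_le (by norm_num),
    hcs _ (fun Y hY => (hout δ hδ τ b Y hY).2.2.2.2)⟩,
    (th_smooth η κ δ hη4).of_le (by norm_num),
    hcs _ (fun Y hY => (hout δ hδ τ 0 Y hY).2.2.1), ?_, ?_, ?_⟩
  · intro b Y
    rw [Tf_eq η κ δ τ b hη4 Y]
    simp only [Tf_eq η κ δ τ _ hη4 Y]
    ext i
    fin_cases i <;> simp [cross_apply, Fin.sum_univ_three, ee] <;> ring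
  · intro b Y hb
    rw [Tf_eq η κ δ τ b hη4 Y]
    have hg : (fun j => pd j (pf η κ δ τ) Y) = fun j => -(gth η κ δ Y j * Real.sin (κ ⬝ᵥ Y + τ)
      + th η κ δ Y * (Real.cos (κ ⬝ᵥ Y + τ) * κ j)) := by
      funext j
      exact pd_pf η κ δ τ hη4 Y j
    rw [hg]
    have hk : κ 0 * κ 0 + κ 1 * κ 1 + κ 2 * κ 2 = 1 := by
      have := hκ
      simpa [dotProduct, Fin.sum_univ_three] using this
    have hb' : κ 0 * b 0 + κ 1 * b 1 + κ 2 * b 2 = 0 := by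
      have := hb
      simpa [dotProduct, Fin.sum_univ_three] using this
    generalize Real.sin (κ ⬝ᵥ Y + τ) = s
    generalize Real.cos (κ ⬝ᵥ Y + τ) = c
    generalize th η κ δ Y = q
    generalize gth η κ δ Y = g
    ext i
    fin_cases i
    · simp [cross_apply]
      linear_combination (-(q * c * κ 0)) * hb' + (q * c * b 0) * hk
    · simp [cross_apply]
      linear_combination (-(q * c * κ 1)) * hb' + (q * c * b 1) * hk
    · simp [cross_apply]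
      linear_combination (-(q * c * κ 2)) * hb' + (q * c * b 2) * hk
  · intro Y
    funext j
    unfold gth pd
    exact gth_eq η κ δ hη4 Y _

end Pool.Agent.Helper5.Torus
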